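import Pool.Agent.N372.TW.Neg

/-!
# MP_b57ad3_co: for which N = 2 (mod 3) is the twist graph of colourful triangulations connected?

For every `N ≥ 8` with `N ≡ 2 (mod 3)` the graph `H_N` is connected exactly when `N ≥ 14`.
-/

set_option autoImplicit false

namespace Pool.Agent.Results.MP_b57ad3_co.TwistConnectivity

open Pool.Agent.N372.TW

theorem result : ∀ N : ℕ, 8 ≤ N → N % 3 = 2 → ((twistGraph N).Connected ↔ 14 ≤ N) :=
  fun _ h1 h2 => connected_iff h1 h2

end Pool.Agent.Results.MP_b57ad3_co.TwistConnectivity
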